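import Pool.Agent.Helper82.PN.Goals

/-!
# TWOII and TWOIII (MP_6fb600_gt, project PN)
-/

set_option autoImplicit false

open MeasureTheory Set
open Pool.Agent.Helper47.AQ Pool.Agent.Helper82.PN

noncomputable section

namespace Pool.Agent.Helper4.PN

theorem mem_one {E : Type} [AddCommGroup E] [Module ℝ E] {C : Set E} (hC : Convex ℝ C)
    (hne : C.Nonempty) (p z : E) :
    z ∈ convexHull ℝ (insert p C) ↔
      ∃ c ∈ C, ∃ a : ℝ, 0 ≤ a ∧ a ≤ 1 ∧ z = (1 - a) • c + a • p := by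
  rw [convexHull_insert hne, hC.convexHull_eq, mem_convexJoin]
  constructor
  · rintro ⟨p', hp', c, hc, a, b, ha, hb, hab, rfl⟩
    rw [mem_singleton_iff] at hp'
    subst hp'
    refine ⟨c, hc, a, ha, by linarith, ?_⟩
    have : b = 1 - a := by linarith
    rw [this, add_comm]
  · rintro ⟨c, hc, a, ha, ha', rfl⟩
    refine ⟨p, rfl, c, hc, a, 1 - a, ha, by linarith, by ring, ?_⟩
    rw [add_comm]

theorem mem_two {E : Type} [AddCommGroup E] [Module ℝ E] {C : Set E} (hC : Convex ℝ C)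
    (hne : C.Nonempty) (p q z : E) :
    z ∈ convexHull ℝ (insert p (insert q C)) ↔
      ∃ c ∈ C, ∃ a b : ℝ, 0 ≤ a ∧ 0 ≤ b ∧ a + b ≤ 1 ∧ z = (1 - a - b) • c + a • p + b • q := by
  constructor
  · intro hz
    rw [convexHull_insert (insert_nonempty _ _), mem_convexJoin] at hz
    obtain ⟨p', hp', y, hy, a, b, ha, hb, hab, rfl⟩ := hz
    rw [mem_singleton_iff] at hp'
    subst hp'
    rw [mem_one hC hne] at hy
    obtain ⟨c, hc, r, hr, hr', rfl⟩ := hy
    refine ⟨c, hc, a, b * r, ha, mul_nonneg hb hr, ?_, ?_⟩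
    · nlinarith
    · have h1 : 1 - a - b * r = b * (1 - r) := by
        have : a = 1 - b := by linarith
        rw [this]
        ring
      rw [h1, smul_add, smul_smul, smul_smul]
      abel
  · rintro ⟨c, hc, a, b, ha, hb, hab, rfl⟩
    have h := (convex_convexHull ℝ (insert p (insert q C))).sum_mem
      (t := (Finset.univ : Finset (Fin 3))) (w := ![1 - a - b, a, b]) (z := ![c, p, q])
      (by
        intro i _
        fin_cases i
        · simp
          linarith
        · simpa using ha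
        · simpa using hb)
      (by
        rw [Fin.sum_univ_three]
        simp
        ring)
      (by
        intro i _
        apply subset_convexHull
        fin_cases i
        · simp [hc]
        · simp
        · simp)
    rw [Fin.sum_univ_three] at h
    simpa using h

theorem lift_add {ι : Type} (x y : ι → ℝ) : lift (x + y) = lift x + lift y := by
  funext i
  rcases i with i | i
  · rfl
  · simp [lift]

theorem lift_smul {ι : Type} (r : ℝ) (x : ι → ℝ) : lift (r • x) = r • lift x := by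
  funext i
  rcases i with i | i
  · rfl
  · simp [lift]

theorem lift_inr {ι : Type} (x : ι → ℝ) : lift x (Sum.inr ()) = 0 := by
  simp [lift]

theorem lift_convex {ι : Type} {C : Set (ι → ℝ)} (hC : Convex ℝ C) : Convex ℝ (lift '' C) := by
  rintro _ ⟨x, hx, rfl⟩ _ ⟨y, hy, rfl⟩ a b ha hb hab
  refine ⟨a • x + b • y, hC hx hy ha hb hab, ?_⟩
  rw [lift_add, lift_smul, lift_smul]

/-- the points of the body with two points over `w` at heights `s < 1` and `1` -/
theorem mem_ks {ι : Type} {C : Set (ι → ℝ)} (hC : Convex ℝ C) (hne : C.Nonempty) (w : ι → ℝ)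
    (v : ι ⊕ Unit → ℝ) (s : ℝ) (hs : s < 1) (z : ι ⊕ Unit → ℝ) :
    z ∈ convexHull ℝ (insert (lift w + v) (insert (lift w + s • v) (lift '' C))) ↔
      ∃ c ∈ C, ∃ l t : ℝ, 0 ≤ l ∧ l ≤ 1 ∧ s * l ≤ t ∧ t ≤ l ∧
        z = lift ((1 - l) • c + l • w) + t • v := by
  rw [mem_two (lift_convex hC) (hne.image _)]
  constructor
  · rintro ⟨_, ⟨c, hc, rfl⟩, a, b, ha, hb, hab, rfl⟩
    refine ⟨c, hc, a + b, a + b * s, by linarith, hab, by nlinarith, by nlinarith, ?_⟩
    rw [lift_add, lift_smul, lift_smul]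
    have h1 : (1 : ℝ) - (a + b) = 1 - a - b := by ring
    rw [h1]
    module
  · rintro ⟨c, hc, l, t, hl, hl', h1, h2, rfl⟩
    have hs' : 0 < 1 - s := by linarith
    refine ⟨_, ⟨c, hc, rfl⟩, (t - s * l) / (1 - s), (l - t) / (1 - s),
      div_nonneg (by linarith) hs'.le, div_nonneg (by linarith) hs'.le, ?_, ?_⟩
    · rw [← add_div, div_le_one hs']
      nlinarith
    · rw [lift_add, lift_smul, lift_smul]
      have e1 : (t - s * l) / (1 - s) + (l - t) / (1 - s) = l := by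
        field_simp
        ring
      have e2 : (t - s * l) / (1 - s) + (l - t) / (1 - s) * s = t := by
        field_simp
        ring
      obtain ⟨a, haa⟩ : ∃ a, a = (t - s * l) / (1 - s) := ⟨_, rfl⟩
      obtain ⟨b, hbb⟩ : ∃ b, b = (l - t) / (1 - s) := ⟨_, rfl⟩
      rw [← haa, ← hbb] at e1 e2 ⊢
      rw [← e2, ← e1]
      module

theorem mem_k1 {ι : Type} {C : Set (ι → ℝ)} (hC : Convex ℝ C) (hne : C.Nonempty) (w : ι → ℝ)
    (v : ι ⊕ Unit → ℝ) (z : ι ⊕ Unit → ℝ) :
    z ∈ convexHull ℝ (insert (lift w + v) (lift '' C)) ↔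
      ∃ c ∈ C, ∃ l : ℝ, 0 ≤ l ∧ l ≤ 1 ∧ z = lift ((1 - l) • c + l • w) + l • v := by
  rw [mem_one (lift_convex hC) (hne.image _)]
  constructor
  · rintro ⟨_, ⟨c, hc, rfl⟩, a, ha, ha', rfl⟩
    refine ⟨c, hc, a, ha, ha', ?_⟩
    rw [lift_add, lift_smul, lift_smul]
    module
  · rintro ⟨c, hc, l, hl, hl', rfl⟩
    refine ⟨_, ⟨c, hc, rfl⟩, l, hl, hl', ?_⟩
    rw [lift_add, lift_smul, lift_smul]
    module

theorem gTWOII : TWOII := by
  intro ι _ C w v τ hC hne hv hτ hτ'
  have hK0 : ∀ z, z ∈ convexHull ℝ (insert (lift w + v) (insert (lift w) (lift '' C))) ↔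
      ∃ c ∈ C, ∃ l t : ℝ, 0 ≤ l ∧ l ≤ 1 ∧ 0 ≤ t ∧ t ≤ l ∧
        z = lift ((1 - l) • c + l • w) + t • v := by
    intro z
    have := mem_ks hC hne w v 0 (by norm_num) z
    rw [zero_smul, add_zero] at this
    rw [this]
    simp only [zero_mul]
  have hKt := mem_ks hC hne w v τ hτ'
  have hK1 := mem_k1 hC hne w v
  refine ⟨?_, ?_, ?_, ?_⟩
  · intro z hz
    obtain ⟨c, hc, l, t, hl, hl', h1, h2, rfl⟩ := (hKt z).1 hz
    have h3 : 0 < 1 - τ := by linarith
    refine ⟨lift ((1 - l) • c + l • w) + ((t - τ * l) / (1 - τ)) • v,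
      (hK0 _).2 ⟨c, hc, l, _, hl, hl', div_nonneg (by linarith) h3.le, ?_, rfl⟩,
      lift ((1 - l) • c + l • w) + l • v, (hK1 _).2 ⟨c, hc, l, hl, hl', rfl⟩,
      ⟨(t - τ * l) / (1 - τ) - l, by module⟩, ?_⟩
    · rw [div_le_iff₀ h3]
      nlinarith
    · have e : (1 - τ) * ((t - τ * l) / (1 - τ)) + τ * l = t := by
        field_simp
        ring
      obtain ⟨r, hr⟩ : ∃ r, r = (t - τ * l) / (1 - τ) := ⟨_, rfl⟩
      rw [← hr] at e ⊢
      rw [← e]
      module
  · intro x hx y hy ⟨a, ha⟩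
    obtain ⟨c, hc, l, t, hl, hl', h1, h2, rfl⟩ := (hK0 x).1 hx
    obtain ⟨c', hc', l', hm, hm', rfl⟩ := (hK1 y).1 hy
    obtain ⟨u, hu⟩ : ∃ u, u = (1 - l) • c + l • w := ⟨_, rfl⟩
    obtain ⟨u', hu'⟩ : ∃ u', u' = (1 - l') • c' + l' • w := ⟨_, rfl⟩
    rw [← hu, ← hu'] at ha
    have hin := congrFun ha (Sum.inr ())
    simp only [Pi.sub_apply, Pi.add_apply, Pi.smul_apply, smul_eq_mul, lift_inr, zero_add] at hin
    have haa : t - l' = a := by
      have : (t - l' - a) * v (Sum.inr ()) = 0 := by linarith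
      rcases mul_eq_zero.1 this with h | h
      · linarith
      · exact absurd h hv
    have huu : u = u' := by
      funext i
      have hi := congrFun ha (Sum.inl i)
      simp only [Pi.sub_apply, Pi.add_apply, Pi.smul_apply, smul_eq_mul, lift, Sum.elim_inl] at hi
      rw [← haa] at hi
      linarith
    rw [← hu, ← hu', ← huu]
    have heq : (1 - τ) • (lift u + t • v) + τ • (lift u + l' • v) =
        lift u + ((1 - τ) * t + τ * l') • v := by module
    rw [heq]
    obtain ⟨g, hg⟩ : ∃ g, g = (1 - τ) * t + τ * l' := ⟨_, rfl⟩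
    rw [← hg]
    have h3 : 0 < 1 - τ := by linarith
    have hmul : 0 ≤ (1 - τ) * t := mul_nonneg h3.le h1
    rcases le_or_gt g l' with hgl | hgl
    · refine (hKt _).2 ⟨c', hc', l', g, hm, hm', by linarith, hgl, ?_⟩
      rw [← hu', huu]
    · have hgl2 : g ≤ l := by
        have : (1 - τ) * t ≤ (1 - τ) * l := mul_le_mul_of_nonneg_left h2 h3.le
        nlinarith
      have hll : 0 < l - l' := by linarith
      have p1 : lift u + l' • v ∈
          convexHull ℝ (insert (lift w + v) (insert (lift w + τ • v) (lift '' C))) :=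
        (hKt _).2 ⟨c', hc', l', l', hm, hm', by nlinarith, le_refl _, by rw [← hu', huu]⟩
      have p2 : lift u + l • v ∈
          convexHull ℝ (insert (lift w + v) (insert (lift w + τ • v) (lift '' C))) :=
        (hKt _).2 ⟨c, hc, l, l, hl, hl', by nlinarith, le_refl _, by rw [← hu]⟩
      have h4 := (convex_convexHull ℝ _) p1 p2 (a := (l - g) / (l - l')) (b := (g - l') / (l - l'))
        (div_nonneg (by linarith) hll.le) (div_nonneg (by linarith) hll.le) (by
          rw [← add_div, div_eq_one_iff_eq hll.ne']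
          ring)
      have e1 : (l - g) / (l - l') + (g - l') / (l - l') = 1 := by
        rw [← add_div, div_eq_one_iff_eq hll.ne']
        ring
      have e2 : (l - g) / (l - l') * l' + (g - l') / (l - l') * l = g := by
        field_simp
        ring
      have h5 : ((l - g) / (l - l')) • (lift u + l' • v) + ((g - l') / (l - l')) • (lift u + l • v) =
          lift u + g • v := by
        obtain ⟨r, hr⟩ : ∃ r, r = (l - g) / (l - l') := ⟨_, rfl⟩
        obtain ⟨s, hs⟩ : ∃ s, s = (g - l') / (l - l') := ⟨_, rfl⟩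
        rw [← hr, ← hs] at e1 e2 ⊢
        have e3 : lift u + g • v = (r + s) • lift u + (r * l' + s * l) • v := by
          rw [e1, e2, one_smul]
        rw [e3]
        module
      rw [h5] at h4
      exact h4
  · intro x hx
    obtain ⟨c, hc, l, t, hl, hl', h1, h2, rfl⟩ := (hK0 x).1 hx
    exact ⟨_, (hK1 _).2 ⟨c, hc, l, hl, hl', rfl⟩, t - l, by module⟩
  · intro y hy
    obtain ⟨c, hc, l, hl, hl', rfl⟩ := (hK1 y).1 hy
    exact ⟨_, (hK0 _).2 ⟨c, hc, l, l, hl, hl', hl, le_refl _, rfl⟩, 0, by module⟩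

/-- the points of the body with two points at the same height -/
theorem mem_hs {ι : Type} {C : Set (ι → ℝ)} (hC : Convex ℝ C) (hne : C.Nonempty)
    (y v : ι ⊕ Unit → ℝ) (s : ℝ) (hs : 0 < s) (z : ι ⊕ Unit → ℝ) :
    z ∈ convexHull ℝ (insert y (insert (y + s • v) (lift '' C))) ↔
      ∃ c ∈ C, ∃ l t : ℝ, 0 ≤ l ∧ l ≤ 1 ∧ 0 ≤ t ∧ t ≤ s * l ∧
        z = (1 - l) • lift c + l • y + t • v := by
  rw [mem_two (lift_convex hC) (hne.image _)]
  constructor
  · rintro ⟨_, ⟨c, hc, rfl⟩, a, b, ha, hb, hab, rfl⟩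
    refine ⟨c, hc, a + b, b * s, by linarith, hab, by positivity, by nlinarith, ?_⟩
    module
  · rintro ⟨c, hc, l, t, hl, hl', h1, h2, rfl⟩
    refine ⟨_, ⟨c, hc, rfl⟩, l - t / s, t / s, ?_, by positivity, by linarith, ?_⟩
    · rw [sub_nonneg, div_le_iff₀ hs]
      linarith
    · have e : t / s * s = t := by
        field_simp
      obtain ⟨r, hr⟩ : ∃ r, r = t / s := ⟨_, rfl⟩
      rw [← hr] at e ⊢
      rw [← e]
      module

theorem gTWOIII : TWOIII := by
  intro ι _ C y v hC hne hv hy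
  have hK0 : ∀ z, z ∈ convexHull ℝ (insert y (lift '' C)) ↔
      ∃ c ∈ C, ∃ l : ℝ, 0 ≤ l ∧ l ≤ 1 ∧ z = (1 - l) • lift c + l • y := by
    intro z
    rw [mem_one (lift_convex hC) (hne.image _)]
    constructor
    · rintro ⟨_, ⟨c, hc, rfl⟩, a, ha, ha', rfl⟩
      exact ⟨c, hc, a, ha, ha', rfl⟩
    · rintro ⟨c, hc, l, hl, hl', rfl⟩
      exact ⟨_, ⟨c, hc, rfl⟩, l, hl, hl', rfl⟩
  have hK2 := mem_hs hC hne y v 2 (by norm_num)
  have hK1 : ∀ z, z ∈ convexHull ℝ (insert y (insert (y + v) (lift '' C))) ↔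
      ∃ c ∈ C, ∃ l t : ℝ, 0 ≤ l ∧ l ≤ 1 ∧ 0 ≤ t ∧ t ≤ l ∧
        z = (1 - l) • lift c + l • y + t • v := by
    intro z
    have := mem_hs hC hne y v 1 (by norm_num) z
    rw [one_smul] at this
    rw [this]
    simp only [one_mul]
  refine ⟨?_, ?_, ?_, ?_⟩
  · intro z hz
    obtain ⟨c, hc, l, t, hl, hl', h1, h2, rfl⟩ := (hK1 z).1 hz
    refine ⟨(1 - l) • lift c + l • y, (hK0 _).2 ⟨c, hc, l, hl, hl', rfl⟩,
      (1 - l) • lift c + l • y + (2 * t) • v,
      (hK2 _).2 ⟨c, hc, l, 2 * t, hl, hl', by linarith, by linarith, rfl⟩,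
      ⟨-(2 * t), by module⟩, by module⟩
  · intro x hx y' hy' ⟨a, ha⟩
    obtain ⟨c, hc, l, hl, hl', rfl⟩ := (hK0 x).1 hx
    obtain ⟨c', hc', l', t, hm, hm', h1, h2, rfl⟩ := (hK2 y').1 hy'
    have hin := congrFun ha (Sum.inr ())
    simp only [Pi.sub_apply, Pi.add_apply, Pi.smul_apply, smul_eq_mul, lift_inr, hv, mul_zero,
      zero_add, add_zero] at hin
    have hll : l = l' := by
      have : (l - l') * y (Sum.inr ()) = 0 := by linarith
      rcases mul_eq_zero.1 this with h | h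
      · linarith
      · exact absurd h hy
    subst hll
    refine (hK1 _).2 ⟨(1 / 2 : ℝ) • c + (1 / 2 : ℝ) • c',
      hC hc hc' (by norm_num) (by norm_num) (by norm_num), l, t / 2, hl, hl', by linarith,
      by linarith, ?_⟩
    rw [lift_add, lift_smul, lift_smul]
    module
  · intro x hx
    obtain ⟨c, hc, l, hl, hl', rfl⟩ := (hK0 x).1 hx
    exact ⟨_, (hK2 _).2 ⟨c, hc, l, 0, hl, hl', le_refl _, by linarith, rfl⟩, 0, by module⟩
  · intro y' hy'
    obtain ⟨c, hc, l, t, hl, hl', h1, h2, rfl⟩ := (hK2 y').1 hy'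
    exact ⟨_, (hK0 _).2 ⟨c, hc, l, hl, hl', rfl⟩, -t, by module⟩

end Pool.Agent.Helper4.PN
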